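import Pool.Agent.H822R5.LN.Defs
import Pool.Agent.W896.PD.Defs

/-!
# Substitution of constants and variables in a program with a stack

(after `Pool.Agent.H822R5.LN.SUB`)
-/

set_option autoImplicit false

open Finset

namespace Pool.Agent.TH706.LS

open Pool.Agent.H822R5.LN Pool.Agent.H554R2.Sem
open Pool.Agent.W896.PD (PP Act)

variable {n m : ℕ} {β : Type}

/-- the variable queried instead of `j` -/
def vr (hm : 0 < m) (φ : Fin n → Fin m ⊕ Bool) (j : Fin n) : Fin m :=
  match φ j with
  | Sum.inl v => v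
  | Sum.inr _ => ⟨0, hm⟩

/-- the next node -/
def nx {S : Type} (φ : Fin n → Fin m ⊕ Bool) (j : Fin n) (nxt : Bool → S) (b : Bool) : S :=
  match φ j with
  | Sum.inl _ => nxt b
  | Sum.inr c => nxt c

theorem nx_sub {S : Type} (hm : 0 < m) (φ : Fin n → Fin m ⊕ Bool) (j : Fin n) (nxt : Bool → S)
    (x : Pt m) : nx φ j nxt (x (vr hm φ j)) = nxt (sub φ x j) := by
  unfold nx vr sub
  cases hφ : φ j with
  | inl v => simp [hφ]
  | inr c => simp [hφ]

/-- the new program: the queries of constants are replaced by queries of the first variable -/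
@[reducible] def prog (hm : 0 < m) (φ : Fin n → Fin m ⊕ Bool) (P : PP (Fin n) β) :
    PP (Fin m) β where
  State := P.State
  Sym := P.Sym
  start := P.start
  act := fun s => match P.act s with
    | Act.query j nxt => Act.query (vr hm φ j) (nx φ j nxt)
    | Act.push a q => Act.push a q
    | Act.pop nxt => Act.pop nxt
    | Act.out b => Act.out b

theorem runs1 (hm : 0 < m) (φ : Fin n → Fin m ⊕ Bool) (P : PP (Fin n) β) (x : Pt m)
    {q : P.State} {σ : List P.Sym} {l : List (Fin n)} {b : β} (h : P.Runs (sub φ x) q σ l b) :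
    ∃ l' : List (Fin m), l'.length = l.length ∧ (prog hm φ P).Runs x q σ l' b := by
  induction h with
  | @out q σ b h =>
    exact ⟨[], rfl, PP.Runs.out (P := prog hm φ P) (by simp only [h])⟩
  | @query q σ j nxt l b h _ ih =>
    obtain ⟨l', h1, h2⟩ := ih
    refine ⟨vr hm φ j :: l', by simp [h1], ?_⟩
    refine PP.Runs.query (P := prog hm φ P) (nxt := nx φ j nxt) (by simp only [h]) ?_
    rw [nx_sub hm φ j nxt x]
    exact h2
  | @push q σ a q' l b h _ ih =>
    obtain ⟨l', h1, h2⟩ := ih
    exact ⟨l', h1, PP.Runs.push (P := prog hm φ P) (a := a) (q' := q') (by simp only [h]) h2⟩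
  | @pop q a σ nxt l b h _ ih =>
    obtain ⟨l', h1, h2⟩ := ih
    exact ⟨l', h1, PP.Runs.pop (P := prog hm φ P) (a := a) (nxt := nxt) (by simp only [h]) h2⟩

theorem runs2 (hm : 0 < m) (φ : Fin n → Fin m ⊕ Bool) (P : PP (Fin n) β) (x : Pt m)
    {q : (prog hm φ P).State} {σ : List (prog hm φ P).Sym} {l : List (Fin m)} {b : β}
    (h : (prog hm φ P).Runs x q σ l b) :
    ∃ l' : List (Fin n), l'.length = l.length ∧ P.Runs (sub φ x) q σ l' b := by
  induction h with
  | @out q σ b h =>
    cases hq : P.act q with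
    | query j nxt => simp only [hq] at h; cases h
    | push a q' => simp only [hq] at h; cases h
    | pop nxt => simp only [hq] at h; cases h
    | out b' =>
      simp only [hq, Act.out.injEq] at h
      subst h
      exact ⟨[], rfl, PP.Runs.out hq⟩
  | @query q σ i nxt l b h _ ih =>
    cases hq : P.act q with
    | query j nxt' =>
      simp only [hq, Act.query.injEq] at h
      obtain ⟨rfl, rfl⟩ := h
      obtain ⟨l', h1, h2⟩ := ih
      rw [nx_sub hm φ j nxt' x] at h2
      exact ⟨j :: l', by simp [h1], PP.Runs.query hq h2⟩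
    | push a q' => simp only [hq] at h; cases h
    | pop nxt => simp only [hq] at h; cases h
    | out b' => simp only [hq] at h; cases h
  | @push q σ a q' l b h _ ih =>
    cases hq : P.act q with
    | query j nxt' => simp only [hq] at h; cases h
    | push a' q'' =>
      simp only [hq, Act.push.injEq] at h
      obtain ⟨rfl, rfl⟩ := h
      obtain ⟨l', h1, h2⟩ := ih
      exact ⟨l', h1, PP.Runs.push hq h2⟩
    | pop nxt => simp only [hq] at h; cases h
    | out b' => simp only [hq] at h; cases h
  | @pop q a σ nxt l b h _ ih =>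
    cases hq : P.act q with
    | query j nxt' => simp only [hq] at h; cases h
    | push a' q'' => simp only [hq] at h; cases h
    | pop nxt' =>
      simp only [hq, Act.pop.injEq] at h
      subst h
      obtain ⟨l', h1, h2⟩ := ih
      exact ⟨l', h1, PP.Runs.pop hq h2⟩
    | out b' => simp only [hq] at h; cases h

theorem comp_iff (hm : 0 < m) (φ : Fin n → Fin m ⊕ Bool) (P : PP (Fin n) β) (x : Pt m) (b : β)
    (τ : ℕ) : (∃ l, (prog hm φ P).Comp x l b ∧ l.length ≤ τ) ↔
      ∃ l, P.Comp (sub φ x) l b ∧ l.length ≤ τ := by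
  constructor
  · rintro ⟨l, h1, h2⟩
    obtain ⟨l', h3, h4⟩ := runs2 hm φ P x h1
    exact ⟨l', h4, by omega⟩
  · rintro ⟨l, h1, h2⟩
    obtain ⟨l', h3, h4⟩ := runs1 hm φ P x h1
    exact ⟨l', h4, by omega⟩

end Pool.Agent.TH706.LS
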