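import Pool.Agent.W952.Appl
import Pool.Agent.W896.PD.Defs

set_option autoImplicit false

/-!
# Substitution of literals and constants in a program with a stack
-/

namespace Pool.Agent.TH706.LS

open Pool.Agent.H554R2.Sem Pool.Agent.W952.Ap
open Pool.Agent.W896.PD (PP Act)

variable {E : Type} {m : ℕ}

/-- The actions of the new program. -/
def nd (hm : 0 < m) (φ : E → (Fin m × Bool) ⊕ Bool) {S Γ : Type} (a : Act E Bool S Γ) :
    Act (Fin m) Bool S Γ :=
  match a with
  | .query i nxt =>
    match φ i with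
    | Sum.inl (v, s) => .query v (fun b => nxt (decide (b = s)))
    | Sum.inr c => .query ⟨0, hm⟩ (fun _ => nxt c)
  | .push a q => .push a q
  | .pop nxt => .pop nxt
  | .out b => .out b

/-- The new program. -/
@[reducible] def plug (hm : 0 < m) (φ : E → (Fin m × Bool) ⊕ Bool) (P : PP E Bool) :
    PP (Fin m) Bool where
  State := P.State
  Sym := P.Sym
  start := P.start
  act := fun s => nd hm φ (P.act s)

theorem nd_query (hm : 0 < m) (φ : E → (Fin m × Bool) ⊕ Bool) {S Γ : Type} (i : E)
    (nxt : Bool → S) :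
    ∃ (u : Fin m) (nxt' : Bool → S),
      nd (Γ := Γ) hm φ (.query i nxt) = .query u nxt' ∧
      ∀ x : Pt m, nxt' (x u) = nxt (subs φ x i) := by
  rcases hφ : φ i with ⟨v, s⟩ | c
  · exact ⟨v, fun b => nxt (decide (b = s)), by simp [nd, hφ], fun x => by simp [subs, hφ]⟩
  · exact ⟨⟨0, hm⟩, fun _ => nxt c, by simp [nd, hφ], fun x => by simp [subs, hφ]⟩

theorem runs_to (hm : 0 < m) (φ : E → (Fin m × Bool) ⊕ Bool) (P : PP E Bool) (x : Pt m)
    {q : P.State} {σ : List P.Sym} {l : List E} {b : Bool}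
    (h : P.Runs (subs φ x) q σ l b) :
    ∃ l', (plug hm φ P).Runs x q σ l' b ∧ l'.length = l.length := by
  induction h with
  | @out q σ b h =>
    refine ⟨[], PP.Runs.out ?_, rfl⟩
    show nd hm φ (P.act q) = _
    rw [h]; rfl
  | @query q σ i nxt l b h _ ih =>
    obtain ⟨l', h1, h2⟩ := ih
    obtain ⟨u, nxt', h3, h4⟩ := nd_query (Γ := P.Sym) hm φ i nxt
    refine ⟨u :: l', PP.Runs.query (P := plug hm φ P) (nxt := nxt') ?_ ?_, by simp [h2]⟩
    · show nd hm φ (P.act q) = _
      rw [h]; exact h3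
    · rw [h4 x]; exact h1
  | @push q σ a q' l b h _ ih =>
    obtain ⟨l', h1, h2⟩ := ih
    refine ⟨l', PP.Runs.push (P := plug hm φ P) (a := a) (q' := q') ?_ h1, h2⟩
    show nd hm φ (P.act q) = _
    rw [h]; rfl
  | @pop q a σ nxt l b h _ ih =>
    obtain ⟨l', h1, h2⟩ := ih
    refine ⟨l', PP.Runs.pop (P := plug hm φ P) (nxt := nxt) ?_ h1, h2⟩
    show nd hm φ (P.act q) = _
    rw [h]; rfl

theorem runs_of (hm : 0 < m) (φ : E → (Fin m × Bool) ⊕ Bool) (P : PP E Bool) (x : Pt m)
    {q : (plug hm φ P).State} {σ : List (plug hm φ P).Sym} {l : List (Fin m)} {b : Bool}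
    (h : (plug hm φ P).Runs x q σ l b) :
    ∃ l', P.Runs (subs φ x) q σ l' b ∧ l'.length = l.length := by
  induction h with
  | @out q σ b h =>
    have h' : nd hm φ (P.act q) = .out b := h
    cases hq : P.act q with
    | query i nxt =>
      obtain ⟨u, nxt', h3, -⟩ := nd_query (Γ := P.Sym) hm φ i nxt
      rw [hq, h3] at h'; cases h'
    | push a q' => rw [hq] at h'; cases h'
    | pop nxt => rw [hq] at h'; cases h'
    | out b' =>
      rw [hq] at h'
      have h2 : b' = b := by injection h'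
      subst h2
      exact ⟨[], PP.Runs.out hq, rfl⟩
  | @query q σ i nxt l b h _ ih =>
    have h' : nd hm φ (P.act q) = .query i nxt := h
    cases hq : P.act q with
    | query j nxt2 =>
      obtain ⟨u, nxt', h3, h4⟩ := nd_query (Γ := P.Sym) hm φ j nxt2
      rw [hq, h3] at h'
      injection h' with h5 h6
      subst h5
      subst h6
      obtain ⟨l', h7, h8⟩ := ih
      refine ⟨j :: l', PP.Runs.query hq ?_, by simp [h8]⟩
      rw [← h4 x]
      exact h7
    | push a q' => rw [hq] at h'; cases h'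
    | pop nxt' => rw [hq] at h'; cases h'
    | out b' => rw [hq] at h'; cases h'
  | @push q σ a s' l b h _ ih =>
    have h' : nd hm φ (P.act q) = .push a s' := h
    cases hq : P.act q with
    | query j nxt2 =>
      obtain ⟨u, nxt', h3, -⟩ := nd_query (Γ := P.Sym) hm φ j nxt2
      rw [hq, h3] at h'; cases h'
    | push a' q' =>
      rw [hq] at h'
      injection h' with h5 h6
      subst h5
      subst h6
      obtain ⟨l', h7, h8⟩ := ih
      exact ⟨l', PP.Runs.push hq h7, h8⟩
    | pop nxt' => rw [hq] at h'; cases h'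
    | out b' => rw [hq] at h'; cases h'
  | @pop q a σ nxt l b h _ ih =>
    have h' : nd hm φ (P.act q) = .pop nxt := h
    cases hq : P.act q with
    | query j nxt2 =>
      obtain ⟨u, nxt', h3, -⟩ := nd_query (Γ := P.Sym) hm φ j nxt2
      rw [hq, h3] at h'; cases h'
    | push a' q' => rw [hq] at h'; cases h'
    | pop nxt' =>
      rw [hq] at h'
      injection h' with h5
      subst h5
      obtain ⟨l', h7, h8⟩ := ih
      exact ⟨l', PP.Runs.pop hq h7, h8⟩
    | out b' => rw [hq] at h'; cases h'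

/-- The computations of the new program are those of the old one. -/
theorem comp_plug (hm : 0 < m) (φ : E → (Fin m × Bool) ⊕ Bool) (P : PP E Bool) (x : Pt m)
    (b : Bool) (t : ℕ) : (∃ l, (plug hm φ P).Comp x l b ∧ l.length ≤ t) ↔
      ∃ l, P.Comp (subs φ x) l b ∧ l.length ≤ t := by
  constructor
  · rintro ⟨l, h1, h2⟩
    obtain ⟨l', h3, h4⟩ := runs_of hm φ P x h1
    exact ⟨l', h3, by omega⟩
  · rintro ⟨l, h1, h2⟩
    obtain ⟨l', h3, h4⟩ := runs_to hm φ P x h1
    exact ⟨l', h3, by omega⟩

end Pool.Agent.TH706.LS
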