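import Pool.Agent.TH706.LS.Core
import Pool.Agent.TH706.LS.Plug

set_option autoImplicit false
set_option linter.unusedSectionVars false

/-!
# The lower bound for families of programs with a stack, general form

This is `Pool.Agent.W952.Gen.main` for families of programs with a stack.
-/

open Finset

namespace Pool.Agent.TH706.LS

open Pool.Agent.H822R5.LN Pool.Agent.W952.Mx Pool.Agent.W952.Fr Pool.Agent.W952.Hub
open Pool.Agent.W952.Ap Pool.Agent.W952.LT Pool.Agent.W952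
open Pool.Agent.H554R2.Sem Pool.Agent.H554R2.Coin Pool.Agent.H554R2.Lin
open Pool.Agent.W896.PD (PP)

/-- The program gives the answer `b` on the input `x` after at most `t` queries. -/
def Ans {ι : Type} (P : PP ι Bool) (x : ι → Bool) (t : ℕ) (b : Bool) : Prop :=
  ∃ l, P.Comp x l b ∧ l.length ≤ t

theorem gen {E : ℕ → Type} {J : Type} (Adm : ℕ → J → Prop) (σ : J → ℕ)
    (V Q' : ∀ n, J → (E n → Bool) → Prop) (c : ℕ) (hc : 0 < c)
    (g : ℕ → ℕ → ℕ → ℕ)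
    (H : ∀ (p l M m n : ℕ) [NeZero M] [NeZero m] (A B : (ZMod M × ZMod M) → Fin (p * p) → Xs p)
      (i : J), 0 < p → Ind A B → Nonempty (Conf p l M) → g p l M ≤ m → g p l M ≤ σ i → Adm n i →
      c * (Fintype.card (Cls p l) * (m * m)) ≤ n →
      ∃ φ : E n → (Fin (p * p * nr M m) × Bool) ⊕ Bool, ∀ x : Pt (p * p * nr M m),
        V n i (subs φ x) ∧ (Q' n i (subs φ x) ↔ ∃ γ : Mu p l × Rest M m, Fm γ x ≠ 0)) (k : ℕ) :
    ∃ D : ℕ, 0 < D ∧ ∀ n ≥ D, ∀ i, D ≤ σ i → Adm n i →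
    ∀ (I : Type) [Fintype I] [Nonempty I] (P : I → PP (E n) Bool),
    (∀ j, Fintype.card (P j).State < 2 ^ (n ^ 2 / D)) →
    (∀ x, V n i x → Q' n i x → ∀ j, ¬ Ans (P j) x (k * n ^ 2) false) →
    ∃ x, V n i x ∧ ¬ Q' n i x ∧
      2 ^ (n ^ 2 / D) * Nat.card {j : I // Ans (P j) x (k * n ^ 2) false} < Nat.card I := by
  classical
  obtain ⟨C2, hC2⟩ : ∃ C : ℕ, C = 25600 * (c * c) := ⟨_, rfl⟩
  obtain ⟨p, l, D1, hp3, hWp, hD1, hcore⟩ := coreM (k * C2)
  obtain ⟨W, hW⟩ : ∃ c, c = Fintype.card (Wd l) := ⟨_, rfl⟩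
  have hp0 : 0 < p := by omega
  obtain ⟨M, hM0, A, B, hInd, hdens⟩ := Dsg.design (p * p) (by nlinarith)
  have : NeZero M := ⟨hM0.ne'⟩
  obtain ⟨X, hX⟩ : ∃ c, c = (p * p) ^ (p * p) := ⟨_, rfl⟩
  rw [← hX] at hdens
  have hXW : W + 1 ≤ X := by
    have h1 : p * p ≤ X := by
      rw [hX]
      exact Nat.le_self_pow (by positivity) _
    have h2 : p ≤ p * p := Nat.le_mul_of_pos_left p hp0
    omega
  obtain ⟨Qc, hQc⟩ : ∃ c, c = Fintype.card (Cls p l) := ⟨_, rfl⟩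
  have hQcX : Qc ≤ 10 * X := by
    rw [hQc, card_cls, ← hX, ← hW]
    omega
  obtain ⟨C0, hC0⟩ : ∃ C, C = c * 10 * X := ⟨_, rfl⟩
  have hX0 : 0 < X := by omega
  obtain ⟨m0, hm0⟩ : ∃ C, C = g p l M + 10 + D1 := ⟨_, rfl⟩
  obtain ⟨D, hD⟩ : ∃ c, c = C0 * (m0 * m0) + C2 * D1 + 1 := ⟨_, rfl⟩
  refine ⟨D, by omega, ?_⟩
  intro n hn i hi hadm I _ _ P hPs hPf
  have hC00 : 0 < C0 := by rw [hC0]; positivity
  have hDm : m0 ≤ D := by
    have h1 : m0 ≤ m0 * m0 := Nat.le_mul_self _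
    have h2 : m0 * m0 ≤ C0 * (m0 * m0) := Nat.le_mul_of_pos_left _ hC00
    omega
  -- the parameter `m`
  obtain ⟨m, hm⟩ : ∃ c, c = Nat.sqrt (n / C0) := ⟨_, rfl⟩
  have hmm : m0 ≤ m := by
    rw [hm, Nat.le_sqrt, Nat.le_div_iff_mul_le hC00]
    have : m0 * m0 * C0 = C0 * (m0 * m0) := by ring
    rw [this]
    omega
  have hm1 : 1 ≤ m := by omega
  have : NeZero m := ⟨by omega⟩
  have hsq1 : C0 * (m * m) ≤ n := by
    have h1 : m * m ≤ n / C0 := by
      rw [hm]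
      exact Nat.sqrt_le _
    calc C0 * (m * m) ≤ C0 * (n / C0) := Nat.mul_le_mul_left _ h1
      _ ≤ n := Nat.mul_div_le n C0
  have hsq2 : n ≤ 40 * c * (X * (m * m)) := by
    have h1 : n / C0 < (m + 1) * (m + 1) := by
      rw [hm]
      exact Nat.lt_succ_sqrt _
    rw [Nat.div_lt_iff_lt_mul hC00] at h1
    have h2 : (m + 1) * (m + 1) ≤ 4 * (m * m) := by nlinarith
    calc n ≤ (m + 1) * (m + 1) * C0 := h1.le
      _ ≤ 4 * (m * m) * C0 := Nat.mul_le_mul_right _ h2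
      _ = 40 * c * (X * (m * m)) := by rw [hC0]; ring
  obtain ⟨N', hN'⟩ : ∃ N', N' = p * p * nr M m := ⟨_, rfl⟩
  have hnr : nr M m = (M * M) * ((m * m) * (m * m)) := nr_eq
  have hn2 : n ^ 2 ≤ C2 * N' := by
    calc n ^ 2 ≤ (40 * c * (X * (m * m))) ^ 2 := Nat.pow_le_pow_left hsq2 2
      _ = 1600 * (c * c) * ((X * X) * ((m * m) * (m * m))) := by ring
      _ ≤ 1600 * (c * c) * ((16 * (M * M * (p * p))) * ((m * m) * (m * m))) :=
          Nat.mul_le_mul_left _ (Nat.mul_le_mul_right _ hdens)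
      _ = C2 * N' := by rw [hN', hnr, hC2]; ring
  have hN'0 : 0 < p * p * nr M m := by
    rw [hnr]
    positivity
  -- the family
  have hfit : c * (Fintype.card (Cls p l) * (m * m)) ≤ n := by
    rw [← hQc]
    calc c * (Qc * (m * m)) ≤ c * ((10 * X) * (m * m)) :=
          Nat.mul_le_mul_left _ (Nat.mul_le_mul_right _ hQcX)
      _ = C0 * (m * m) := by rw [hC0]; ring
      _ ≤ n := hsq1
  obtain ⟨φ, hφ⟩ := H p l M m n A B i hp0 hInd (conf_nonempty hp3) (by omega) (by omega) hadm hfit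
  have hexp : n ^ 2 / D ≤ p * p * nr M m / D1 := by
    rw [← hN']
    calc n ^ 2 / D ≤ (C2 * N') / (C2 * D1) := Nat.div_le_div hn2 (by omega) (by
          rw [hC2]; positivity)
      _ = N' / D1 := Nat.mul_div_mul_left _ _ (by rw [hC2]; positivity)
  have htt : k * n ^ 2 ≤ k * C2 * (p * p * nr M m) := by
    rw [← hN', mul_assoc]
    exact Nat.mul_le_mul_left _ hn2
  obtain ⟨x, hx1, hx2⟩ := hcore M m (by omega) I (fun j => plug hN'0 φ (P j)) (fun j =>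
    lt_of_lt_of_le (hPs j) (Nat.pow_le_pow_right (by norm_num) hexp)) (k * n ^ 2) htt (by
      intro x hx j l' hl'
      by_contra hlt
      have h1 := (comp_plug hN'0 φ (P j) x false (k * n ^ 2)).1 ⟨l', hl', by omega⟩
      exact hPf (subs φ x) (hφ x).1 ((hφ x).2.2 hx) j h1)
  refine ⟨subs φ x, (hφ x).1, ?_, ?_⟩
  · rw [(hφ x).2]
    push Not
    exact hx1
  · have h1 : Nat.card {j : I // Ans (P j) (subs φ x) (k * n ^ 2) false} =
        Nat.card {j : I // ∃ l', (plug hN'0 φ (P j)).Comp x l' false ∧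
          l'.length ≤ k * n ^ 2} :=
      Nat.card_congr (Equiv.subtypeEquivRight (fun j =>
        (comp_plug hN'0 φ (P j) x false (k * n ^ 2)).symm))
    rw [h1]
    exact lt_of_le_of_lt (Nat.mul_le_mul_right _ (Nat.pow_le_pow_right (by norm_num) hexp)) hx2

end Pool.Agent.TH706.LS
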