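import Pool.Agent.TH706.LS.Gen
import Pool.Agent.W952.ClqM

set_option autoImplicit false
set_option linter.unusedSectionVars false

/-!
# Hamiltonicity and cliques on programs with a stack with linearly many queries
-/

open Finset

namespace Pool.Agent.TH706.LS

open Pool.Agent.H822R5.LN Pool.Agent.W952.Mx Pool.Agent.W952.Fr Pool.Agent.W952.Hub
open Pool.Agent.W952.Ap Pool.Agent.W952.LT Pool.Agent.W952
open Pool.Agent.H554R2.Sem Pool.Agent.H554R2.Coin Pool.Agent.H554R2.Lin
open Pool.Agent.W896.PD (PP)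

open Classical in
/-- The bits of a graph: for each pair of vertices, whether it is joined. -/
noncomputable def bits {n : ℕ} (G : SimpleGraph (Fin n)) : Sym2 (Fin n) → Bool :=
  fun e => decide (e ∈ G.edgeSet)

theorem bits_iff {n : ℕ} (G : SimpleGraph (Fin n)) (x : Sym2 (Fin n) → Bool) :
    x = bits G ↔ ∀ e, x e = true ↔ e ∈ G.edgeSet := by
  constructor
  · rintro rfl e
    simp [bits]
  · intro h
    funext e
    rw [Bool.eq_iff_iff, h e]
    simp [bits]

theorem bits_inj {n : ℕ} {G G' : SimpleGraph (Fin n)} (h : bits G = bits G') : G = G' := by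
  rw [← SimpleGraph.edgeSet_inj]
  ext e
  have h1 := (bits_iff G (bits G)).1 rfl e
  have h2 := (bits_iff G' (bits G)).1 h e
  rw [← h1, h2]

theorem ham_main (k : ℕ) : ∃ D : ℕ, 0 < D ∧ ∀ n ≥ D, ∀ (I : Type) [Fintype I] [Nonempty I]
    (P : I → PP (Sym2 (Fin n)) Bool),
    (∀ i, Fintype.card (P i).State < 2 ^ (n ^ 2 / D)) →
    (∀ G : SimpleGraph (Fin n), G.IsHamiltonian → ∀ i, ¬ Ans (P i) (bits G) (k * n ^ 2) false) →
    ∃ G : SimpleGraph (Fin n), ¬ G.IsHamiltonian ∧
      2 ^ (n ^ 2 / D) * Nat.card {i : I // Ans (P i) (bits G) (k * n ^ 2) false} <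
        Nat.card I := by
  classical
  obtain ⟨D, hD, hmain⟩ := gen (E := fun n => Sym2 (Fin n)) (J := ℕ)
    (fun _ _ => True) (fun s => s)
    (fun n _ x => ∃ G : SimpleGraph (Fin n), x = bits G)
    (fun n _ x => ∀ G : SimpleGraph (Fin n), x = bits G → G.IsHamiltonian)
    400 (by norm_num)
    (fun p l M => if hM : M = 0 then 0 else
        haveI : NeZero M := ⟨hM⟩
        Fintype.card (Cls p l) + 2 * Fintype.card (Conf p l M) + 10)
    (by
      intro p l M m n _ _ A B s hp hI hC hm hs hadm hn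
      have hM : M ≠ 0 := NeZero.ne M
      simp only [hM, dite_false] at hm hs
      have hsize := size_ok (p := p) (l := l) (M := M) (m := m) hm
      obtain ⟨φ, hφ⟩ := fam (p := p) (M := M) (m := m) (l := l) hp hI hC (hsize.trans hn)
      refine ⟨φ, fun x => ?_⟩
      obtain ⟨G, h1, h2⟩ := hφ x
      have h1' := (bits_iff G _).2 h1
      refine ⟨⟨G, h1'⟩, ?_⟩
      rw [← h2]
      constructor
      · intro h3
        exact h3 G h1'
      · intro h3 G' h4
        rw [h1'] at h4
        rw [← bits_inj h4]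
        exact h3) k
  refine ⟨D, hD, ?_⟩
  intro n hn I _ _ P hP hP2
  obtain ⟨x, ⟨G, hG⟩, h2, h3⟩ := hmain n hn D le_rfl trivial I P hP (by
    rintro x ⟨G, hG⟩ hQ j hj
    rw [hG] at hj
    exact hP2 G (hQ G hG) j hj)
  refine ⟨G, ?_, ?_⟩
  · intro h4
    apply h2
    intro G' hG'
    rw [hG] at hG'
    rw [← bits_inj hG']
    exact h4
  · rw [← hG]
    exact h3

theorem clique_main (k : ℕ) : ∃ D : ℕ, 0 < D ∧ ∀ n ≥ D, ∀ s, D ≤ s → 2 * s ≤ n →
    ∀ (I : Type) [Fintype I] [Nonempty I] (P : I → PP (Sym2 (Fin n)) Bool),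
    (∀ i, Fintype.card (P i).State < 2 ^ (n ^ 2 / D)) →
    (∀ G : SimpleGraph (Fin n), ¬ G.CliqueFree s →
      ∀ i, ¬ Ans (P i) (bits G) (k * n ^ 2) false) →
    ∃ G : SimpleGraph (Fin n), G.CliqueFree s ∧
      2 ^ (n ^ 2 / D) * Nat.card {i : I // Ans (P i) (bits G) (k * n ^ 2) false} <
        Nat.card I := by
  classical
  obtain ⟨D, hD, hmain⟩ := gen (E := fun n => Sym2 (Fin n)) (J := ℕ)
    (fun n s => 2 * s ≤ n) (fun s => s)
    (fun n _ x => ∃ G : SimpleGraph (Fin n), x = bits G)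
    (fun n s x => ∀ G : SimpleGraph (Fin n), x = bits G → ¬ G.CliqueFree s)
    8 (by norm_num)
    (fun p l M => 2 * (2 * (p * p) + 2) + (8 * (p * p) ^ (p * p) + 2 * Fintype.card (Wd l) + 3) +
      (if hM : M = 0 then 0 else
        haveI : NeZero M := ⟨hM⟩
        Fintype.card (Conf p l M) * (8 * (p * p) ^ (p * p) + 2 * Fintype.card (Wd l) + 3)))
    (by
      intro p l M m n _ _ A B s hp hI hC hm hs hadm hn
      have hM : M ≠ 0 := NeZero.ne M
      simp only [hM, dite_false] at hm hs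
      have hJ : Fintype.card (Jx p) = 2 * (p * p) + 2 := by
        rw [Fintype.card_sum, Fintype.card_prod, Fintype.card_bool, Fintype.card_fin]
      obtain ⟨φ, hφ⟩ := Clq.fam (l := l) (m := m) hI (n := n) (s := s) rfl (by
        rw [hJ, card_cls]; omega) (by
        have h1 : m ≤ Fintype.card (Cls p l) * (m * m) := by
          have h2 : m ≤ m * m := Nat.le_mul_self _
          refine h2.trans (Nat.le_mul_of_pos_left _ ?_)
          rw [card_cls]; omega
        have h3 : Fintype.card (Conf p l M) * (Fintype.card (Cls p l) + 1) ≤ m := by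
          rw [card_cls]
          have h4 : 8 * (p * p) ^ (p * p) + 2 * Fintype.card (Wd l) + 2 + 1 =
            8 * (p * p) ^ (p * p) + 2 * Fintype.card (Wd l) + 3 := rfl
          rw [h4]
          omega
        omega)
      refine ⟨φ, fun x => ?_⟩
      obtain ⟨G, h1, h2⟩ := hφ x
      have h1' := (bits_iff G _).2 h1
      refine ⟨⟨G, h1'⟩, ?_⟩
      rw [← h2]
      constructor
      · intro h3
        exact h3 G h1'
      · intro h3 G' h4
        rw [h1'] at h4
        rw [← bits_inj h4]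
        exact h3) k
  refine ⟨D, hD, ?_⟩
  intro n hn s hs hsn I _ _ P hP hP2
  obtain ⟨x, ⟨G, hG⟩, h2, h3⟩ := hmain n hn s hs hsn I P hP (by
    rintro x ⟨G, hG⟩ hQ j hj
    rw [hG] at hj
    exact hP2 G (hQ G hG) j hj)
  refine ⟨G, ?_, ?_⟩
  · by_contra h4
    apply h2
    intro G' hG'
    rw [hG] at hG'
    rw [← bits_inj hG']
    exact h4
  · rw [← hG]
    exact h3

end Pool.Agent.TH706.LS
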