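import Pool.Agent.TH706.LS.Sub
import Pool.Agent.H822R5.LN.MAIN
import Pool.Agent.H822R5.LN.FIN
import Pool.Agent.H822R5.LN.GTT
import Pool.Agent.H822R5.LN.GLR
import Pool.Agent.H822R5.LN.LNG
import Pool.Agent.H822R5.LN.CSP
import Pool.Agent.H822R5.LN.EXP
import Pool.Agent.H822R5.LN.POS
import Pool.Agent.H822R5.LN.FST
import Pool.Agent.H822R5.LN.CRO
import Pool.Agent.H822R5.LN.RCT
import Pool.Agent.H822R5.LN.WRD
import Pool.Agent.H822R5.LN.POPX
import Pool.Agent.H822R5.LN.PRM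
import Pool.Agent.W902.PDS.Sep

/-!
# A linear context-free language which is hard for programs with a stack
-/

set_option autoImplicit false

open Finset

namespace Pool.Agent.TH706.LS

open Pool.Agent.H822R5.LN
open Pool.Agent.H554R2.Sem Pool.Agent.H554R2.Coin Pool.Agent.H554R2.Lin
open Pool.Agent.W896.PD (PP Act)

open Classical in
/-- Few of the words `sub φ x` which are not in `L` are proved to be not in `L`. -/
def Few (L : Set (List Bool)) (n τ E : ℕ) {m : ℕ} (φ : Fin n → Fin m ⊕ Bool) : Prop :=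
  0 < (univ.filter fun x : Pt m => List.ofFn (sub φ x) ∉ L).card ∧
  ∀ P : PP (Fin n) Bool, Fintype.card P.State ≤ 2 ^ E →
    (∀ x l, P.Comp x l false → l.length ≤ τ → List.ofFn x ∉ L) →
    2 ^ E * (univ.filter fun x : Pt m => ∃ l, P.Comp (sub φ x) l false ∧ l.length ≤ τ).card ≤
      (univ.filter fun x : Pt m => List.ofFn (sub φ x) ∉ L).card

theorem dens : ∃ G : LinGrammar Bool, ∀ k : ℕ, ∃ D : ℕ, 0 < D ∧ ∀ n ≥ D,
    ∃ (m : ℕ) (φ : Fin n → Fin m ⊕ Bool), ∀ τ ≤ k * n, Few G.language n τ (n / D) φ := by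
  classical
  have hl : S_language := TLNG.LNG TGTT.GTT TGLR.GLR
  have hpop : S_popular := TPOPX.POP TCSP.CSP
  have hprime : S_prime := TPRM.PRM
  have hwords : S_words := TWRD.WRD TPOS.POS
  have hrect : S_rect := TRCT.RCT TFST.FST (TCRO.CRO TPOS.POS) TEXP.EXP
  refine ⟨TMAIN.gr TFIN.FIN.1 TFIN.FIN.2, fun k => ?_⟩
  obtain ⟨L, hL⟩ : ∃ L, L = (TMAIN.gr TFIN.FIN.1 TFIN.FIN.2).language := ⟨_, rfl⟩
  rw [← hL]
  have hmem : ∀ w, w ∈ L ↔ Mem w := by
    intro w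
    rw [hL]
    exact TMAIN.lang TFIN.FIN.1 TFIN.FIN.2 hl w
  obtain ⟨Q, r, N, hQ, hr, hN, hmain⟩ := main_rect (120 * k + 1)
  obtain ⟨D2, hD2, hcls⟩ := Pool.Agent.W896.PD.classes_le (60 * k) r hr N hN
  obtain ⟨D3, hD3, hclk⟩ := Pool.Agent.W902.PDS.clocked_le (60 * k) D2 hD2
  obtain ⟨M, hM⟩ : ∃ M, M = 8 * N + D2 + D3 + 2 * r + 4 * (Q * Q) + 1 := ⟨_, rfl⟩
  obtain ⟨N1, hN1⟩ := hprime M
  obtain ⟨D, hD⟩ : ∃ D, D = 240 * D2 + N1 + 1 := ⟨_, rfl⟩
  refine ⟨D, by omega, fun n hn => ?_⟩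
  obtain ⟨p, hp, hp3, hMp, hpn, hnp⟩ := hN1 n (by omega)
  have hp1 : 1 ≤ p := by omega
  obtain ⟨c, hc⟩ := hpop p hp1
  obtain ⟨φ, hφ⟩ := hwords p n hp1 hpn c
  refine ⟨p * p, φ, fun τ hτ => ?_⟩
  obtain ⟨m, hm⟩ : ∃ m, m = p * p := ⟨_, rfl⟩
  rw [← hm] at hnp
  have hpm : p ≤ m := by
    rw [hm]
    exact Nat.le_mul_of_pos_left p (by omega)
  have hm0 : 0 < m := by omega
  obtain ⟨F, hF⟩ : ∃ F : Finset (Pt (p * p)), F = univ.filter (fun x : Pt (p * p) =>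
      List.ofFn (sub φ x) ∉ L) := ⟨_, rfl⟩
  have hnot : ∀ x : Pt (p * p), x ∈ F ↔ ∀ s ∈ Sp p, form p s x = c s := by
    intro x
    rw [hF, Finset.mem_filter, hmem, hφ]
    simp only [Finset.mem_univ, true_and]
    push Not
    rfl
  have hFc : (univ.filter (fun x : Pt (p * p) => ∀ s ∈ Sp p, form p s x = c s)) = F := by
    ext x
    rw [hnot, Finset.mem_filter]
    simp
  rw [hFc] at hc
  have hc : 2 ^ m ≤ 2 ^ (4 * p) * F.card := by
    rw [hm]
    exact hc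
  have hF0 : 0 < F.card := by
    rcases Nat.eq_zero_or_pos F.card with h0 | h0
    · rw [h0, mul_zero] at hc
      have := Nat.pow_pos (n := m) (show 0 < 2 by norm_num)
      omega
    · exact h0
  refine ⟨by rw [← hF]; exact hF0, fun P hP hs => ?_⟩
  rw [← hF]
  by_contra hcon
  push Not at hcon
  have hm0' : 0 < p * p := by omega
  obtain ⟨P', hP'⟩ : ∃ P', P' = prog hm0' φ P := ⟨_, rfl⟩
  have hcard : Fintype.card P'.State = Fintype.card P.State := by rw [hP']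
  obtain ⟨G, hG⟩ : ∃ G : Finset (Pt (p * p)), G = univ.filter (fun x : Pt (p * p) =>
      ∃ l, P.Comp (sub φ x) l false ∧ l.length ≤ τ) := ⟨_, rfl⟩
  rw [← hG] at hcon
  have hτm : τ ≤ 60 * k * m := by
    calc τ ≤ k * n := hτ
      _ ≤ k * (60 * m) := Nat.mul_le_mul_left k hnp
      _ = 60 * k * m := by ring
  obtain ⟨t, ht⟩ : ∃ t : ℕ, t = 60 * k * m / r + 1 := ⟨_, rfl⟩
  have ht1 : 60 * k * m < r * t := by
    rw [ht]; exact Nat.lt_mul_div_succ _ hr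
  have hmM : M ≤ m := hMp.trans hpm
  have ht2 : r * (2 * t) ≤ (120 * k + 1) * m := by
    have h1 := Nat.mul_div_le (60 * k * m) r
    have h2 : 2 * r ≤ m := by omega
    rw [ht]
    calc r * (2 * (60 * k * m / r + 1)) = 2 * (r * (60 * k * m / r)) + 2 * r := by ring
      _ ≤ 2 * (60 * k * m) + m := by omega
      _ = (120 * k + 1) * m := by ring
  obtain ⟨Bk, hBk1, hBk2⟩ := Pool.Agent.W896.PD.blocks (Pool.Agent.W902.PDS.clk P' τ) r t hr
    false G (by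
      intro x hx
      rw [hG, Finset.mem_filter] at hx
      obtain ⟨l, h1, h2⟩ := (comp_iff hm0' φ P x false τ).2 hx.2
      rw [← hP'] at h1
      exact ⟨l, (Pool.Agent.W902.PDS.clk_comp P' τ x l false).2 ⟨h1, h2⟩, by omega⟩)
  rw [Pool.Agent.W902.PDS.clk_card, hcard] at hBk1
  have hnD : n / D ≤ m / (4 * D2) := by
    rw [Nat.le_div_iff_mul_le (by omega)]
    have h1 : n / D * D ≤ n := Nat.div_mul_le_self n D
    have h2 : n / D * (240 * D2) ≤ n / D * D := Nat.mul_le_mul_left _ (by omega)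
    have h3 : n / D * (4 * D2) * 60 ≤ 60 * m := by
      calc n / D * (4 * D2) * 60 = n / D * (240 * D2) := by ring
        _ ≤ n / D * D := h2
        _ ≤ n := h1
        _ ≤ 60 * m := hnp
    omega
  have hS : Fintype.card P.State * (τ + 1) ≤ 2 ^ (m / D2) := by
    have h1 : 2 ^ (n / D) ≤ 2 ^ (m / (4 * D2)) := Nat.pow_le_pow_right (by norm_num) hnD
    exact (Nat.mul_le_mul_right _ (hP.trans h1)).trans (hclk m (by omega) τ hτm)
  have hcl := hcls m (by omega) _ hS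
  rw [← ht] at hcl
  obtain ⟨X, hX⟩ : ∃ X, X = r * (Fintype.card P.State * (τ + 1) * (Fintype.card P.State * (τ + 1) *
      ((r * t + 1) * (r * t + 1) ^ r))) ^ r := ⟨_, rfl⟩
  rw [← hX] at hcl hBk1
  have hE2 : 2 ^ (m / D2) * X ≤ 2 ^ (m / (8 * N)) := by
    refine le_trans ?_ hcl
    calc 2 ^ (m / D2) * X ≤ (2 ^ (m / D2) * X) ^ N := by
          rcases Nat.eq_zero_or_pos (2 ^ (m / D2) * X) with h0 | h0
          · rw [h0]; exact Nat.zero_le _
          · exact Nat.le_self_pow (by omega) _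
      _ ≤ N * (2 ^ (m / D2) * X) ^ N := Nat.le_mul_of_pos_left _ hN
  have hDD : 2 ^ (n / D) ≤ 2 ^ (m / D2) :=
    Nat.pow_le_pow_right (by norm_num) (hnD.trans (Nat.div_le_div_left (by omega) hD2))
  have hexp : 4 * p + m / (8 * N) ≤ m / N := by
    rw [Nat.le_div_iff_mul_le hN]
    have h1 : 8 * N * (m / (8 * N)) ≤ m := Nat.mul_div_le m (8 * N)
    have h2 : 8 * N * p ≤ m := by
      rw [hm]
      exact Nat.mul_le_mul_right p (by omega)
    have h3 : 8 * ((4 * p + m / (8 * N)) * N) = 4 * (8 * N * p) + 8 * N * (m / (8 * N)) := by ring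
    omega
  have hbig : 2 ^ m ≤ 2 ^ (m / N) * Bk.K.card := by
    calc 2 ^ m ≤ 2 ^ (4 * p) * F.card := hc
      _ ≤ 2 ^ (4 * p) * (2 ^ (n / D) * G.card) := Nat.mul_le_mul_left _ hcon.le
      _ ≤ 2 ^ (4 * p) * (2 ^ (m / D2) * (X * Bk.K.card)) :=
          Nat.mul_le_mul_left _ (Nat.mul_le_mul hDD hBk1)
      _ = 2 ^ (4 * p) * ((2 ^ (m / D2) * X) * Bk.K.card) := by ring
      _ ≤ 2 ^ (4 * p) * (2 ^ (m / (8 * N)) * Bk.K.card) :=
          Nat.mul_le_mul_left _ (Nat.mul_le_mul_right _ hE2)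
      _ = 2 ^ (4 * p + m / (8 * N)) * Bk.K.card := by rw [pow_add]; ring
      _ ≤ 2 ^ (m / N) * Bk.K.card :=
          Nat.mul_le_mul_right _ (Nat.pow_le_pow_right (by norm_num) hexp)
  subst hm
  obtain ⟨a, b, g, ha, hb, hga, hgb, hR⟩ := hmain (p * p) (by omega) (2 * t) ht2 Bk hbig
  have hKform : ∀ x ∈ Bk.K, ∀ s ∈ Sp p, form p s x = c s := by
    intro x hx
    obtain ⟨l, hl⟩ := hBk2 x hx
    rw [Pool.Agent.W902.PDS.clk_comp, hP'] at hl
    obtain ⟨l', h1, h2⟩ := (comp_iff hm0' φ P x false τ).1 ⟨l, hl⟩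
    have h3 := hs _ l' h1 h2
    exact (hnot x).1 (by rw [hF, Finset.mem_filter]; exact ⟨Finset.mem_univ _, h3⟩)
  have hfin := hrect p hp hp3 Bk.K a b g hR c hKform (by omega) (by omega)
  -- numbers
  have ha2 : a ≤ 2 * (a - g) := by omega
  have hb2 : b ≤ 2 * (b - g) := by omega
  have h1 : (p * p) * (p * p) ≤ (Q * a) * (Q * b) := Nat.mul_le_mul ha hb
  have h2 : (Q * a) * (Q * b) ≤ (Q * (2 * (a - g))) * (Q * (2 * (b - g))) :=
    Nat.mul_le_mul (Nat.mul_le_mul_left Q ha2) (Nat.mul_le_mul_left Q hb2)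
  have h3 : (Q * (2 * (a - g))) * (Q * (2 * (b - g))) = 4 * (Q * Q) * ((a - g) * (b - g)) := by
    ring
  have h4 : 4 * (Q * Q) * ((a - g) * (b - g)) ≤ 4 * (Q * Q) * p ^ 3 :=
    Nat.mul_le_mul_left _ hfin
  have h5 : (p * p) * (p * p) ≤ 4 * (Q * Q) * p ^ 3 := by
    calc (p * p) * (p * p) ≤ (Q * a) * (Q * b) := h1
      _ ≤ _ := h2
      _ = _ := h3
      _ ≤ _ := h4
  have h6 : (p * p) * (p * p) = p * p ^ 3 := by ring
  have h7 : p ≤ 4 * (Q * Q) := by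
    rw [h6] at h5
    exact Nat.le_of_mul_le_mul_right h5 (by positivity)
  omega

/-- **Families of programs.** -/
theorem main : ∃ G : LinGrammar Bool, ∀ k : ℕ, ∃ D : ℕ, 0 < D ∧ ∀ n ≥ D, ∀ τ ≤ k * n,
    ∀ (Ω : Type) [Fintype Ω] (P : Ω → PP (Fin n) Bool),
      (∀ ω, Fintype.card (P ω).State ≤ 2 ^ (n / D)) →
      (∀ ω x l, (P ω).Comp x l false → l.length ≤ τ → List.ofFn x ∉ G.language) →
      ∃ x : Pt n, List.ofFn x ∉ G.language ∧
        2 ^ (n / D) * Nat.card {ω // ∃ l, (P ω).Comp x l false ∧ l.length ≤ τ} ≤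
          Fintype.card Ω := by
  classical
  obtain ⟨G, hG⟩ := dens
  refine ⟨G, fun k => ?_⟩
  obtain ⟨D, hD, h⟩ := hG k
  refine ⟨D, hD, fun n hn τ hτ Ω _ P hP hs => ?_⟩
  obtain ⟨m, φ, hm⟩ := h n hn
  obtain ⟨hF, hfew⟩ := hm τ hτ
  by_contra hcon
  push Not at hcon
  obtain ⟨F, hFdef⟩ : ∃ F : Finset (Pt m), F = univ.filter (fun x : Pt m =>
      List.ofFn (sub φ x) ∉ G.language) := ⟨_, rfl⟩
  rw [← hFdef] at hF
  have h1 : ∑ _x ∈ F, Fintype.card Ω < ∑ x ∈ F, 2 ^ (n / D) *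
      (univ.filter fun ω => ∃ l, (P ω).Comp (sub φ x) l false ∧ l.length ≤ τ).card := by
    apply Finset.sum_lt_sum_of_nonempty (Finset.card_pos.1 hF)
    intro x hx
    rw [hFdef, Finset.mem_filter] at hx
    have h2 := hcon (sub φ x) hx.2
    rw [Nat.card_eq_fintype_card, Fintype.card_subtype] at h2
    exact h2
  have h2 : ∑ x ∈ F, (univ.filter fun ω => ∃ l, (P ω).Comp (sub φ x) l false ∧
      l.length ≤ τ).card = ∑ ω, (F.filter fun x => ∃ l, (P ω).Comp (sub φ x) l false ∧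
        l.length ≤ τ).card :=
    Finset.sum_card_bipartiteAbove_eq_sum_card_bipartiteBelow
      (s := F) (t := (univ : Finset Ω))
      (fun x ω => ∃ l, (P ω).Comp (sub φ x) l false ∧ l.length ≤ τ)
  rw [Finset.sum_const, smul_eq_mul, ← Finset.mul_sum, h2, Finset.mul_sum] at h1
  have h3 : ∑ ω, 2 ^ (n / D) * (F.filter fun x => ∃ l, (P ω).Comp (sub φ x) l false ∧
      l.length ≤ τ).card ≤ ∑ _ω : Ω, F.card := by
    apply Finset.sum_le_sum
    intro ω _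
    have h4 := hfew (P ω) (hP ω) (hs ω)
    rw [← hFdef] at h4
    refine le_trans (Nat.mul_le_mul_left _ (Finset.card_le_card ?_)) h4
    exact Finset.filter_subset_filter _ (Finset.subset_univ _)
  rw [Finset.sum_const, Finset.card_univ, smul_eq_mul, mul_comm] at h3
  omega

end Pool.Agent.TH706.LS
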